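import Pool.Agent.Y298.GA.RatStm

/-!
# The attracting fixed point near infinity (project GA of helper298, part RESC)
-/

set_option autoImplicit false

open Set Filter Metric Topology Polynomial
open scoped OnePoint

namespace Pool.Agent.Y876.GA

open Pool.Agent.Y298.GA Pool.Agent.H762R2.Rt Pool.Agent.Helper114.Herman Pool.Agent.H462R2.AP

theorem ch_true_eq (x : ℂ) : ch true x = pr 1 x := by
  have h1 : ch true x = sinv (x : OnePoint ℂ) := by simp [ch]
  rw [h1, ← pr_one x, sinv_pr (Or.inr one_ne_zero)]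

theorem ch_true_zero : ch true 0 = ∞ := by
  rw [ch_true_eq, pr_zero]

theorem ch_true_inv {z : ℂ} (hz : z ≠ 0) : ch true z⁻¹ = (z : OnePoint ℂ) := by
  rw [ch_true_eq, pr_ne (inv_ne_zero hz)]
  simp

theorem pol_sub (a b : ℕ → ℂ) (D : ℕ) (y : ℂ) :
    pol (fun k => a k - b k) D y = pol a D y - pol b D y := by
  unfold pol
  rw [← Finset.sum_sub_distrib]
  exact Finset.sum_congr rfl fun k _ => by ring

/-- the numerator near infinity -/
theorem pol_num {d : ℕ} (hd : 2 ≤ d) (c₀ x : ℂ) :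
    pol (fun k => (X ^ d + C c₀ : ℂ[X]).coeff (d - k)) d x = 1 + c₀ * x ^ d := by
  rw [← hom_one_left]
  have hdeg : (X ^ d + C c₀ : ℂ[X]).natDegree ≤ d := by
    refine (natDegree_add_le _ _).trans ?_
    simp
  by_cases hx : x = 0
  · subst hx
    rw [hom_zero, one_pow, mul_one, zero_pow (by omega), mul_zero, add_zero]
    simp [coeff_X_pow, coeff_C, show d ≠ 0 by omega]
  · rw [hom_ne hdeg hx]
    simp only [eval_add, eval_pow, eval_X, eval_C]
    rw [one_div, mul_add, ← mul_pow, mul_inv_cancel₀ hx, one_pow]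
    ring

/-- the denominator near infinity -/
theorem pol_den {d : ℕ} (hd : 2 ≤ d) (x : ℂ) :
    pol (fun k => (1 : ℂ[X]).coeff (d - k)) d x = x ^ d := by
  rw [← hom_one_left]
  have hdeg : (1 : ℂ[X]).natDegree ≤ d := by simp
  by_cases hx : x = 0
  · subst hx
    rw [hom_zero, zero_pow (by omega)]
    simp [coeff_one, show d ≠ 0 by omega]
  · rw [hom_ne hdeg hx]
    simp

theorem pow_small {d : ℕ} (hd : 2 ≤ d) {x : ℂ} (hx : ‖x‖ ≤ 1 / 8) : ‖x ^ d‖ ≤ 1 / 64 := by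
  rw [norm_pow]
  calc ‖x‖ ^ d ≤ (1 / 8) ^ d := pow_le_pow_left₀ (norm_nonneg _) hx _
    _ ≤ (1 / 8) ^ 2 := pow_le_pow_of_le_one (by norm_num) (by norm_num) hd
    _ = 1 / 64 := by norm_num

theorem lin_small {d : ℕ} (hd : 2 ≤ d) : (d : ℝ) * (1 / 8) ^ (d - 1) ≤ 1 / 4 := by
  obtain ⟨m, rfl⟩ : ∃ m, d = m + 2 := ⟨d - 2, by omega⟩
  have h1 : m + 2 - 1 = m + 1 := by omega
  rw [h1]
  induction m with
  | zero => norm_num
  | succ m ih =>
    have h2 := ih (by omega) (by omega)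
    have h3 : (((m + 1 + 2 : ℕ) : ℝ)) * (1 / 8) ^ (m + 1 + 1) ≤
        ((m + 2 : ℕ) : ℝ) * (1 / 8) ^ (m + 1) := by
      rw [pow_succ (1 / 8 : ℝ) (m + 1), ← mul_assoc, mul_right_comm]
      apply mul_le_mul_of_nonneg_right _ (by positivity)
      push_cast
      have : (0 : ℝ) ≤ m := Nat.cast_nonneg m
      linarith
    exact h3.trans h2

theorem pow_lip' {d : ℕ} (hd : 2 ≤ d) {x y : ℂ} (hx : ‖x‖ ≤ 1 / 8) (hy : ‖y‖ ≤ 1 / 8) :
    ‖x ^ d - y ^ d‖ ≤ 1 / 4 * ‖x - y‖ :=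
  (pow_lip hx hy d).trans (mul_le_mul_of_nonneg_right (lin_small hd) (norm_nonneg _))

/-- the attracting disc -/
theorem near {d : ℕ} (hd : 2 ≤ d) {c₀ : ℂ} {r : ℝ} {P Q : ℂ[X]}
    {f : OnePoint ℂ → OnePoint ℂ} (hc : ‖c₀‖ ≤ 2) (hr : 0 ≤ r)
    (hr1 : ((d : ℝ) + 1) * (d + 1) * r ≤ 1 / 100) (hN : Nr d c₀ r P Q) (hf : IsRat f P Q)
    (hmax : max P.natDegree Q.natDegree = d) {x : ℂ} (hx : ‖x‖ ≤ 1 / 8) :
    Sinks f (ch true x) := by
  set a : ℕ → ℂ := fun k => P.coeff (d - k) - (X ^ d + C c₀ : ℂ[X]).coeff (d - k) with ha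
  set b : ℕ → ℂ := fun k => Q.coeff (d - k) - (1 : ℂ[X]).coeff (d - k) with hb
  have ha' : ∀ k, ‖a k‖ ≤ r := fun k => hN.cP _
  have hb' : ∀ k, ‖b k‖ ≤ r := fun k => hN.cQ _
  have hA : ∀ x, hom P d 1 x = 1 + c₀ * x ^ d + pol a d x := by
    intro x
    rw [hom_one_left, ha, pol_sub, pol_num hd]
    ring
  have hB : ∀ x, hom Q d 1 x = x ^ d + pol b d x := by
    intro x
    rw [hom_one_left, hb, pol_sub, pol_den hd]
    ring
  have hd0 : (0 : ℝ) ≤ d := Nat.cast_nonneg d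
  have hr2 : ((d : ℝ) + 1) * r ≤ 1 / 100 := by
    refine le_trans ?_ hr1
    have : 0 ≤ ((d : ℝ) + 1) * r := by positivity
    nlinarith
  have hr3 : ((d : ℝ) + 1) * d * r ≤ 1 / 100 := by
    refine le_trans ?_ hr1
    have : 0 ≤ ((d : ℝ) + 1) * r := by positivity
    nlinarith
  have b1 : ∀ x : ℂ, ‖x‖ ≤ 1 / 8 → 9 / 10 ≤ ‖hom P d 1 x‖ := by
    intro x hx
    rw [hA]
    have h1 := pol_bound (D := d) ha' (y := x) (by linarith)
    have h2 : ‖c₀ * x ^ d‖ ≤ 2 * (1 / 64) := by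
      rw [norm_mul]
      exact mul_le_mul hc (pow_small hd hx) (norm_nonneg _) (by norm_num)
    have h3 : ‖(1 : ℂ)‖ ≤ ‖1 + c₀ * x ^ d + pol a d x‖ + ‖c₀ * x ^ d‖ + ‖pol a d x‖ := by
      have e : (1 : ℂ) = (1 + c₀ * x ^ d + pol a d x) - c₀ * x ^ d - pol a d x := by ring
      calc ‖(1 : ℂ)‖ = ‖(1 + c₀ * x ^ d + pol a d x) - c₀ * x ^ d - pol a d x‖ := by rw [← e]
        _ ≤ ‖(1 + c₀ * x ^ d + pol a d x) - c₀ * x ^ d‖ + ‖pol a d x‖ := norm_sub_le _ _
        _ ≤ _ := by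
          have := norm_sub_le (1 + c₀ * x ^ d + pol a d x) (c₀ * x ^ d)
          linarith
    rw [norm_one] at h3
    linarith
  have b2 : ∀ x : ℂ, ‖x‖ ≤ 1 / 8 → ‖hom Q d 1 x‖ ≤ 1 / 30 := by
    intro x hx
    rw [hB]
    have h1 := pol_bound (D := d) hb' (y := x) (by linarith)
    have h2 := norm_add_le (x ^ d) (pol b d x)
    have h3 := pow_small hd hx
    linarith
  have b3 : ∀ x y : ℂ, ‖x‖ ≤ 1 / 8 → ‖y‖ ≤ 1 / 8 →
      ‖hom Q d 1 x - hom Q d 1 y‖ ≤ 3 / 10 * ‖x - y‖ := by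
    intro x y hx hy
    rw [hB, hB]
    have h1 := pol_lip (D := d) hb' (y := x) (z := y) (by linarith) (by linarith)
    have h2 := pow_lip' hd hx hy
    have h3 : x ^ d + pol b d x - (y ^ d + pol b d y) =
        (x ^ d - y ^ d) + (pol b d x - pol b d y) := by ring
    rw [h3]
    have h4 := norm_add_le (x ^ d - y ^ d) (pol b d x - pol b d y)
    have h5 : ((d : ℝ) + 1) * d * r * ‖x - y‖ ≤ 1 / 100 * ‖x - y‖ :=
      mul_le_mul_of_nonneg_right hr3 (norm_nonneg _)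
    have h6 := norm_nonneg (x - y)
    linarith
  have b4 : ∀ x y : ℂ, ‖x‖ ≤ 1 / 8 → ‖y‖ ≤ 1 / 8 →
      ‖hom P d 1 x - hom P d 1 y‖ ≤ 6 / 10 * ‖x - y‖ := by
    intro x y hx hy
    rw [hA, hA]
    have h1 := pol_lip (D := d) ha' (y := x) (z := y) (by linarith) (by linarith)
    have h2 := pow_lip' hd hx hy
    have h3 : 1 + c₀ * x ^ d + pol a d x - (1 + c₀ * y ^ d + pol a d y) =
        c₀ * (x ^ d - y ^ d) + (pol a d x - pol a d y) := by ring
    rw [h3]
    have h4 := norm_add_le (c₀ * (x ^ d - y ^ d)) (pol a d x - pol a d y)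
    have h5 : ((d : ℝ) + 1) * d * r * ‖x - y‖ ≤ 1 / 100 * ‖x - y‖ :=
      mul_le_mul_of_nonneg_right hr3 (norm_nonneg _)
    have h6 := norm_nonneg (x - y)
    have h7 : ‖c₀ * (x ^ d - y ^ d)‖ ≤ 2 * (1 / 4 * ‖x - y‖) := by
      rw [norm_mul]
      exact mul_le_mul hc h2 (norm_nonneg _) (by norm_num)
    linarith
  refine two_charts' (ψ := fun _ => ch true) (σ := fun i => i) (τ := fun _ => 1)
    (h := fun _ x => hom Q d 1 x / hom P d 1 x) (r := 1 / 8) hf.cont (by norm_num)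
    (fun _ => one_pos) (fun _ => continuous_ch true) (fun _ => isOpenMap_ch true)
    ?_ ?_ ?_ (i := true) hx
  · intro i x hx
    have h1 := b1 x hx
    have hne : hom P d 1 x ≠ 0 := by
      intro h
      rw [h, norm_zero] at h1
      norm_num at h1
    rw [Function.iterate_one, ch_true_eq, ch_true_eq,
      rat_formula hf hmax.symm (by omega) (Or.inl one_ne_zero)]
    have e1 : pr (hom P d 1 x) (hom Q d 1 x) = sinv (pr (hom Q d 1 x) (hom P d 1 x)) :=
      (sinv_pr (Or.inr hne)).symm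
    rw [e1, pr_ne hne, ← pr_one (hom Q d 1 x / hom P d 1 x), sinv_pr (Or.inr one_ne_zero)]
  · intro i x hx
    have h1 := b1 x hx
    have h2 := b2 x hx
    show ‖hom Q d 1 x / hom P d 1 x‖ < 1 / 8
    rw [norm_div, div_lt_iff₀ (by linarith)]
    linarith
  · intro i x y hx hy
    have p1 := b1 x hx
    have p2 := b1 y hy
    have p3 := b2 y hy
    have p4 := b3 x y hx hy
    have p5 := b4 x y hx hy
    show ‖hom Q d 1 x / hom P d 1 x - hom Q d 1 y / hom P d 1 y‖ ≤ 1 / 2 * ‖x - y‖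
    generalize hom Q d 1 x = B at *
    generalize hom Q d 1 y = B' at *
    generalize hom P d 1 x = A at *
    generalize hom P d 1 y = A' at *
    have hA0 : A ≠ 0 := by
      intro h
      rw [h, norm_zero] at p1
      norm_num at p1
    have hA1 : A' ≠ 0 := by
      intro h
      rw [h, norm_zero] at p2
      norm_num at p2
    have e1 : B / A - B' / A' = ((B - B') - B' / A' * (A - A')) / A := by
      field_simp
      ring
    have n0 := norm_nonneg (x - y)
    have q1 : ‖B' / A'‖ ≤ 1 / 20 := by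
      rw [norm_div, div_le_iff₀ (by linarith)]
      linarith
    rw [e1, norm_div, div_le_iff₀ (by linarith)]
    have q2 : ‖(B - B') - B' / A' * (A - A')‖ ≤ 3 / 10 * ‖x - y‖ + 1 / 20 * (6 / 10 * ‖x - y‖) := by
      refine (norm_sub_le _ _).trans (add_le_add p4 ?_)
      rw [norm_mul]
      exact mul_le_mul q1 p5 (norm_nonneg _) (by norm_num)
    nlinarith

theorem resc (hbas : Pool.Agent.Y298.GA.S_RBAS) : Pool.Agent.Y298.GA.S_RESC := by
  intro d hd
  obtain ⟨K, δ0, hK, hδ0, hδ1, hb⟩ := hbas d hd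
  have hd0 : (0 : ℝ) ≤ d := Nat.cast_nonneg d
  set δ : ℝ := min δ0 (min (1 / (10 * K)) (1 / (100 * ((d + 1) * (d + 1))))) with hδ
  have hK0 : 0 < K := by linarith
  refine ⟨δ, ?_, (min_le_left _ _).trans hδ1, ?_⟩
  · exact lt_min hδ0 (lt_min (by positivity) (by positivity))
  intro c₀ r P Q f hc hr hrδ hN hf
  have r0 : r ≤ δ0 := hrδ.trans (min_le_left _ _)
  have r1 : K * r ≤ 1 / 10 := by
    have h1 : r ≤ 1 / (10 * K) := hrδ.trans ((min_le_right _ _).trans (min_le_left _ _))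
    rw [le_div_iff₀ (by positivity)] at h1
    linarith
  have r2 : ((d : ℝ) + 1) * (d + 1) * r ≤ 1 / 100 := by
    have h1 : r ≤ 1 / (100 * ((d + 1) * (d + 1))) :=
      hrδ.trans ((min_le_right _ _).trans (min_le_right _ _))
    rw [le_div_iff₀ (by positivity)] at h1
    linarith
  obtain ⟨h1, h2, -, -, -, hmax, -⟩ := hb c₀ r P Q hc hr r0 hN
  have hnear : ∀ x : ℂ, ‖x‖ ≤ 1 / 8 → Sinks f (ch true x) := fun x hx =>
    near hd hc hr r2 hN hf hmax hx
  have key : ∀ m : ℕ, ∀ z : ℂ, 5 / 2 < ‖z‖ → 8 - (m : ℝ) ≤ ‖z‖ → Sinks f (z : OnePoint ℂ) := by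
    have hbig : ∀ z : ℂ, 8 ≤ ‖z‖ → Sinks f (z : OnePoint ℂ) := by
      intro z hz
      have hz0 : z ≠ 0 := by
        intro h
        rw [h, norm_zero] at hz
        norm_num at hz
      rw [← ch_true_inv hz0]
      apply hnear
      rw [norm_inv]
      have : ‖z‖⁻¹ ≤ 8⁻¹ := inv_anti₀ (by norm_num) hz
      linarith
    intro m
    induction m with
    | zero =>
      intro z _ hz
      apply hbig
      simpa using hz
    | succ m ih =>
      intro z hz hzm
      rcases le_or_gt 8 ‖z‖ with h8 | h8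
      · exact hbig z h8
      · have hzb : z ∈ ball (0 : ℂ) 9 := by
          rw [mem_ball_zero_iff]
          linarith
        have hQ : Q.eval z ≠ 0 := by
          intro h
          have := h1 z hzb
          rw [h, norm_zero] at this
          norm_num at this
        have hfz := hf.eval z hQ
        apply sinks_of_image hf.cont
        rw [hfz]
        have h3 := h2 z hzb
        set w := P.eval z / Q.eval z with hw
        have h4 : ‖z ^ d‖ ≤ ‖w‖ + ‖w - (z ^ d + c₀)‖ + ‖c₀‖ := by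
          have e : z ^ d = w - (w - (z ^ d + c₀)) - c₀ := by ring
          calc ‖z ^ d‖ = ‖w - (w - (z ^ d + c₀)) - c₀‖ := by rw [← e]
            _ ≤ ‖w - (w - (z ^ d + c₀))‖ + ‖c₀‖ := norm_sub_le _ _
            _ ≤ _ := by
              have := norm_sub_le w (w - (z ^ d + c₀))
              linarith
        have h5 : ‖z‖ ^ 2 ≤ ‖z ^ d‖ := by
          rw [norm_pow]
          exact pow_le_pow_right₀ (by linarith) hd
        have h6 : ‖z‖ + 1 ≤ ‖w‖ := by nlinarith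
        apply ih w (by linarith)
        push_cast at hzm
        linarith
  refine ⟨?_, fun z hz => key 8 z hz (by push_cast; linarith)⟩
  rw [← ch_true_zero]
  exact hnear 0 (by rw [norm_zero]; norm_num)

end Pool.Agent.Y876.GA
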